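import Pool.Agent.V7H14.QL.Grp5

/-!
# The Quillen-Lichtenbaum dimension of smooth categories: definitions
-/

set_option autoImplicit false

open CategoryTheory

namespace Pool.Agent.V7H14.QL

/-- The categories of the question and their `K`-theory. -/
structure KTheory where
  /-- small idempotent-complete `ℂ`-linear stable `∞`-categories -/
  Cat : Type 1
  /-- smooth categories -/
  Smooth : Cat → Prop
  /-- `K_n(𝒜, ℤ/m)` (nonconnective algebraic `K`-theory) -/
  K : Cat → ℕ → ℤ → AddCommGrpCat.{0}
  /-- `K^top_n(𝒜, ℤ/m)` (the topological `K`-theory of Blanc) -/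
  Ktop : Cat → ℕ → ℤ → AddCommGrpCat.{0}
  /-- the comparison map -/
  comp : ∀ A m n, K A m n ⟶ Ktop A m n
  /-- the multiplication by the Bott element -/
  bott : ∀ A m n, K A m n ⟶ K A m (n + 2)
  /-- the multiplication by the Bott element -/
  bottTop : ∀ A m n, Ktop A m n ⟶ Ktop A m (n + 2)
  /-- `Perf(ℂ[G])` -/
  perf : ∀ (G : Type) [Group G], Cat

/-- a bijective homomorphism of abelian groups -/
def Bij {X Y : AddCommGrpCat.{0}} (f : X ⟶ Y) : Prop := Function.Bijective f

/-- an injective homomorphism of abelian groups -/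
def Inj {X Y : AddCommGrpCat.{0}} (f : X ⟶ Y) : Prop := Function.Injective f

/-- the kernel of `g` is the image of `f` -/
def ExactPair {X Y Z : AddCommGrpCat.{0}} (f : X ⟶ Y) (g : Y ⟶ Z) : Prop := Function.Exact f g

/-- `dim_QL 𝒜 ≤ d`: for all `m ≥ 1` the comparison map is bijective for `n ≥ d - 1` and injective for `n = d - 2`. -/
def QLDimLe (T : KTheory) (A : T.Cat) (d : ℕ) : Prop :=
  ∀ m : ℕ, 1 ≤ m → (∀ n : ℤ, (d : ℤ) - 1 ≤ n → Bij (T.comp A m n)) ∧ Inj (T.comp A m ((d : ℤ) - 2))

/-- `G` is a finitely presented group. -/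
def FinitelyPresented (G : Type) [Group G] : Prop :=
  ∃ (n : ℕ) (R : Set (FreeGroup (Fin n))), R.Finite ∧ Nonempty (PresentedGroup R ≃* G)

/-- `G` has no elements of finite order except `1`. -/
def TorsionFree (G : Type) [Group G] : Prop := ∀ (g : G) (n : ℕ), 0 < n → g ^ n = 1 → g = 1

/-- the homology group `H_n(G, ℤ/2)` -/
noncomputable def H2 (G : Type) [Group G] (n : ℕ) : AddCommGrpCat.{0} := AddCommGrpCat.of (groupHomology (triv G) n)

/-- the `K`-groups of `A` and `A'` modulo `m` are isomorphic, and the isomorphisms are compatible with the Bott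
element -/
def SameK (T : KTheory) (A A' : T.Cat) (m : ℕ) : Prop :=
  ∃ e : ∀ n, T.K A m n ⟶ T.K A' m n, (∀ n, Bij (e n)) ∧ ∀ n, T.bott A m n ≫ e (n + 2) = e n ≫ T.bott A' m n

/-- There is an exact sequence `K_{n-2} → K_n → H_n(G, ℤ/2) → K_{n-3} → K_{n-1}`, where `K` is the `K`-theory of `ℂ[G]`
modulo two and the outer maps are the multiplication by the Bott element. -/
def BottSequence (T : KTheory) (G : Type) [Group G] (n : ℕ) : Prop :=
  ∃ (p : T.K (T.perf G) 2 ((n : ℤ) - 2 + 2) ⟶ H2 G n) (q : H2 G n ⟶ T.K (T.perf G) 2 ((n : ℤ) - 3)),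
    ExactPair (T.bott (T.perf G) 2 ((n : ℤ) - 2)) p ∧ ExactPair p q ∧ ExactPair q (T.bott (T.perf G) 2 ((n : ℤ) - 3))

/-- Known theorems. -/
structure Facts (T : KTheory) : Prop where
  /-- Bott periodicity of `K^top` -/
  periodic : ∀ A m n, 1 ≤ m → Bij (T.bottTop A m n)
  /-- the comparison map is compatible with the multiplication by the Bott element -/
  natural : ∀ A m n, 1 ≤ m → T.bott A m n ≫ T.comp A m (n + 2) = T.comp A m n ≫ T.bottTop A m n
  /-- For a finitely presented group `G` the group algebra `ℂ[G]` is `H_0` of a connective semi-free dg-algebra with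
  finitely many generators (in degrees `0` and `1`); its category of perfect modules is smooth (Toën and Vaquié), and
  the map from its `K`-theory modulo `m` to that of `ℂ[G]` is bijective (Goodwillie). -/
  cell : ∀ (G : Type) [Group G], FinitelyPresented G → ∃ A, T.Smooth A ∧ ∀ m, 1 ≤ m → SameK T A (T.perf G) m
  /-- For a torsion-free solvable group `G` the assembly map from the homology of `G` with coefficients in the spectrum
  `K(ℂ)` to `K(ℂ[G])` is an equivalence (the conjecture of Farrell and Jones, a theorem of Wegner for solvable groups),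
  and the cofibre of the Bott element on `K(ℂ)` modulo two is the Eilenberg-MacLane spectrum of `ℤ/2` (Suslin). -/
  sequence : ∀ (G : Type) [Group G], Group.IsSolvable G → TorsionFree G → ∀ n, BottSequence T G n

end Pool.Agent.V7H14.QL
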