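import Pool.Agent.V7H14.QL.Hom2

/-!
# The homology of the finitely presented metabelian group of Baumslag
-/

set_option autoImplicit false

namespace Pool.Agent.V7H14.QL

/-- the generator `a` -/
def fa : FreeGroup (Fin 3) := FreeGroup.of 0
/-- the generator `s` -/
def fs : FreeGroup (Fin 3) := FreeGroup.of 1
/-- the generator `t` -/
def ft : FreeGroup (Fin 3) := FreeGroup.of 2
/-- `t a t⁻¹` -/
def fc : FreeGroup (Fin 3) := ft * fa * ft⁻¹

/-- The relators of the group of Baumslag: `[s, t] = 1`, `[a, t a t⁻¹] = 1` and `s a s⁻¹ = a t a t⁻¹`. -/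
def rels : Set (FreeGroup (Fin 3)) := {fs * ft * (ft * fs)⁻¹, fa * fc * (fc * fa)⁻¹, fs * fa * fs⁻¹ * (fa * fc)⁻¹}

/-- The group of Baumslag `⟨a, s, t | [s, t], [a, t a t⁻¹], s a s⁻¹ = a t a t⁻¹⟩`. -/
abbrev B : Type := PresentedGroup rels

/-- the generators -/
def b (i : Fin 3) : B := PresentedGroup.of i

theorem rel1 : b 1 * b 2 = b 2 * b 1 := by
  have h := PresentedGroup.mk_eq_one_iff (rels := rels)
    (x := FreeGroup.of 1 * FreeGroup.of 2 * (FreeGroup.of 2 * FreeGroup.of 1)⁻¹) |>.2
    (Subgroup.subset_normalClosure (by simp [rels, fa, fs, ft, fc]))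
  rw [map_mul, map_inv, map_mul, map_mul, mul_inv_eq_one] at h
  exact h

theorem rel2 : b 0 * (b 2 * b 0 * (b 2)⁻¹) = b 2 * b 0 * (b 2)⁻¹ * b 0 := by
  have h := PresentedGroup.mk_eq_one_iff (rels := rels)
    (x := FreeGroup.of 0 * (FreeGroup.of 2 * FreeGroup.of 0 * (FreeGroup.of 2)⁻¹) *
      (FreeGroup.of 2 * FreeGroup.of 0 * (FreeGroup.of 2)⁻¹ * FreeGroup.of 0)⁻¹) |>.2
    (Subgroup.subset_normalClosure (by simp [rels, fa, fs, ft, fc]))
  rw [map_mul, map_inv, mul_inv_eq_one] at h
  simp only [map_mul, map_inv] at h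
  exact h

theorem rel3 : b 1 * b 0 * (b 1)⁻¹ = b 0 * (b 2 * b 0 * (b 2)⁻¹) := by
  have h := PresentedGroup.mk_eq_one_iff (rels := rels)
    (x := FreeGroup.of 1 * FreeGroup.of 0 * (FreeGroup.of 1)⁻¹ *
      (FreeGroup.of 0 * (FreeGroup.of 2 * FreeGroup.of 0 * (FreeGroup.of 2)⁻¹))⁻¹) |>.2
    (Subgroup.subset_normalClosure (by simp [rels, fa, fs, ft, fc]))
  rw [map_mul, map_inv, mul_inv_eq_one] at h
  simp only [map_mul, map_inv] at h
  exact h

/-- the conjugates of `a` -/
def conj (k : ℕ) : B := (b 2) ^ k * b 0 * ((b 2) ^ k)⁻¹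

theorem conj_succ (k : ℕ) : b 2 * conj k * (b 2)⁻¹ = conj (k + 1) := by
  rw [conj, conj, pow_succ']
  group

theorem conj_s (k : ℕ) : b 1 * conj k * (b 1)⁻¹ = conj k * conj (k + 1) := by
  have h1 : b 1 * (b 2) ^ k = (b 2) ^ k * b 1 := (show Commute (b 1) (b 2) from rel1).pow_right k
  have h2 : b 1 * conj k * (b 1)⁻¹ = (b 2) ^ k * (b 1 * b 0 * (b 1)⁻¹) * ((b 2) ^ k)⁻¹ := by
    have h3 : ((b 2) ^ k)⁻¹ * (b 1)⁻¹ = (b 1)⁻¹ * ((b 2) ^ k)⁻¹ := by
      rw [← mul_inv_rev, ← mul_inv_rev, h1]
    calc b 1 * conj k * (b 1)⁻¹ = (b 1 * (b 2) ^ k) * b 0 * (((b 2) ^ k)⁻¹ * (b 1)⁻¹) := by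
          rw [conj]; group
      _ = _ := by rw [h1, h3]; group
  rw [h2, rel3, conj, conj, pow_succ]
  group

/-- the argument of Baumslag -/
theorem commute_zero : ∀ k : ℕ, ∀ i ≤ k, Commute (conj 0) (conj i)
  | 0, i, hi => by
    rw [Nat.le_zero.1 hi]
  | k + 1, i, hi => by
    rcases Nat.lt_or_ge i (k + 1) with h | h
    · exact commute_zero k i (Nat.lt_succ_iff.1 h)
    · have hi2 : i = k + 1 := le_antisymm hi h
      subst hi2
      rcases Nat.eq_zero_or_pos k with h0 | h0
      · subst h0
        show conj 0 * conj 1 = conj 1 * conj 0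
        have h1 : conj 0 = b 0 := by simp [conj]
        have h2 : conj 1 = b 2 * b 0 * (b 2)⁻¹ := by simp [conj]
        rw [h1, h2]
        exact rel2
      · have shift : ∀ x y : B, Commute x y → Commute (b 2 * x * (b 2)⁻¹) (b 2 * y * (b 2)⁻¹) :=
          fun x y h => by
            have := h.map (MulAut.conj (b 2)).toMonoidHom
            simpa [MulAut.conj_apply] using this
        have c0 : Commute (conj 0) (conj k) := commute_zero k k le_rfl
        have c1 : Commute (conj 1) (conj k) := by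
          have h1 := shift _ _ (commute_zero k (k - 1) (Nat.sub_le _ _))
          rw [conj_succ, conj_succ, Nat.sub_add_cancel h0] at h1
          exact h1
        have c2 : Commute (conj 1) (conj (k + 1)) := by
          have h1 := shift _ _ c0
          rw [conj_succ, conj_succ] at h1
          exact h1
        have c3 : Commute (conj 0 * conj 1) (conj k * conj (k + 1)) := by
          have h1 := c0.map (MulAut.conj (b 1)).toMonoidHom
          have h2 : Commute (b 1 * conj 0 * (b 1)⁻¹) (b 1 * conj k * (b 1)⁻¹) := by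
            simpa [MulAut.conj_apply] using h1
          rw [conj_s, conj_s] at h2
          exact h2
        -- `conj 0` commutes with `conj (k + 1)`
        have c4 : conj k * (conj 0 * conj (k + 1)) * conj 1 = conj k * (conj (k + 1) * conj 0) * conj 1 := by
          calc conj k * (conj 0 * conj (k + 1)) * conj 1 = (conj k * conj 0) * (conj (k + 1) * conj 1) := by group
            _ = (conj 0 * conj k) * (conj 1 * conj (k + 1)) := by rw [c0.eq, c2.eq]
            _ = conj 0 * (conj k * conj 1) * conj (k + 1) := by group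
            _ = conj 0 * (conj 1 * conj k) * conj (k + 1) := by rw [c1.eq]
            _ = (conj 0 * conj 1) * (conj k * conj (k + 1)) := by group
            _ = (conj k * conj (k + 1)) * (conj 0 * conj 1) := c3.eq
            _ = _ := by group
        exact mul_left_cancel (mul_right_cancel c4)

theorem commute_conj (i j : ℕ) : conj i * conj j = conj j * conj i := by
  have h1 : ∀ i j : ℕ, i ≤ j → Commute (conj i) (conj j) := by
    intro i
    induction i with
    | zero => exact fun j _ => commute_zero j j le_rfl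
    | succ i ih =>
      intro j hj
      obtain ⟨l, rfl⟩ : ∃ l, j = l + 1 := ⟨j - 1, by omega⟩
      have h2 := (ih l (by omega)).map (MulAut.conj (b 2)).toMonoidHom
      have h3 : Commute (b 2 * conj i * (b 2)⁻¹) (b 2 * conj l * (b 2)⁻¹) := by
        simpa [MulAut.conj_apply] using h2
      rw [conj_succ, conj_succ] at h3
      exact h3
  rcases le_total i j with h | h
  · exact h1 i j h
  · exact (h1 j i h).symm

end Pool.Agent.V7H14.QL
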