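import Pool.Agent.V7H14.QL.Grp

/-!
# The homology of the finitely presented metabelian group of Baumslag: the cocycles
-/

set_option autoImplicit false

namespace Pool.Agent.V7H14.QL

/-- The affine maps `z ↦ c z + v`. -/
@[ext] structure Aff (E : Type) [Field E] where
  c : Eˣ
  v : E

variable {E : Type} [Field E]

instance : Group (Aff E) where
  mul x y := ⟨x.c * y.c, x.v + x.c * y.v⟩
  one := ⟨1, 0⟩
  inv x := ⟨x.c⁻¹, -((x.c⁻¹ : Eˣ) * x.v)⟩
  mul_assoc x y z := by
    ext
    · show ((x.c * y.c * z.c : Eˣ) : E) = ((x.c * (y.c * z.c) : Eˣ) : E)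
      rw [mul_assoc]
    · show x.v + x.c * y.v + ((x.c * y.c : Eˣ) : E) * z.v = x.v + x.c * (y.v + y.c * z.v)
      push_cast
      ring
  one_mul x := by
    ext
    · show ((1 * x.c : Eˣ) : E) = x.c
      rw [one_mul]
    · show (0 : E) + ((1 : Eˣ) : E) * x.v = x.v
      simp
  mul_one x := by
    ext
    · show ((x.c * 1 : Eˣ) : E) = x.c
      rw [mul_one]
    · show x.v + (x.c : E) * 0 = x.v
      simp
  inv_mul_cancel x := by
    ext
    · show ((x.c⁻¹ * x.c : Eˣ) : E) = ((1 : Eˣ) : E)
      rw [inv_mul_cancel]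
    · show -((x.c⁻¹ : Eˣ) * x.v) + ((x.c⁻¹ : Eˣ) : E) * x.v = 0
      ring

theorem mul_c (x y : Aff E) : (x * y).c = x.c * y.c := rfl
theorem mul_v (x y : Aff E) : (x * y).v = x.v + x.c * y.v := rfl
theorem one_v : (1 : Aff E).v = 0 := rfl
theorem inv_c (x : Aff E) : (x⁻¹).c = x.c⁻¹ := rfl
theorem inv_v (x : Aff E) : (x⁻¹).v = -((x.c⁻¹ : Eˣ) * x.v) := rfl
theorem one_c : (1 : Aff E).c = 1 := rfl

/-- the images of the generators: `z + 1`, `(1 + x) z`, `x z` -/
def gen (x y : Eˣ) : Fin 3 → Aff E := ![⟨1, 1⟩, ⟨y, 0⟩, ⟨x, 0⟩]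

theorem gen_rels (x y : Eˣ) (h : (y : E) = 1 + x) : ∀ r ∈ rels, FreeGroup.lift (gen x y) r = 1 := by
  intro r hr
  simp only [rels, Set.mem_insert_iff, Set.mem_singleton_iff] at hr
  rcases hr with rfl | rfl | rfl
  all_goals
    simp only [fa, fs, ft, fc, map_mul, map_inv, FreeGroup.lift_apply_of]
    rw [mul_inv_eq_one]
    ext
  · simp [gen, mul_c]; ring
  · simp [gen, mul_v]
  · simp [gen, mul_c, inv_c]
  · simp [gen, mul_v, mul_c, inv_c, inv_v]; ring
  · simp [gen, mul_c, inv_c]
  · simp [gen, mul_v, mul_c, inv_v, h]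

/-- the homomorphism to the affine group -/
def toAff (x y : Eˣ) (h : (y : E) = 1 + x) : B →* Aff E := PresentedGroup.toGroup (gen_rels x y h)

theorem toAff_b (x y : Eˣ) (h : (y : E) = 1 + x) (i : Fin 3) : toAff x y h (b i) = gen x y i :=
  PresentedGroup.toGroup.of _

/-- the linear part -/
def linU : Aff E →* Eˣ where
  toFun x := x.c
  map_one' := rfl
  map_mul' _ _ := rfl

/-- the linear part -/
def lin : Aff E →* E := (Units.coeHom E).comp linU

theorem toAff_conj (x y : Eˣ) (h : (y : E) = 1 + x) (k : ℕ) : toAff x y h (conj k) = ⟨1, (x : E) ^ k⟩ := by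
  have h1 : ∀ k : ℕ, (⟨x, 0⟩ : Aff E) ^ k = ⟨x ^ k, 0⟩ := by
    intro k
    induction k with
    | zero => rw [pow_zero, pow_zero]; rfl
    | succ k ih =>
      rw [pow_succ, ih]
      ext
      · simp [mul_c, pow_succ]
      · simp [mul_v]
  rw [conj, map_mul, map_mul, map_inv, map_pow, toAff_b, toAff_b]
  show (⟨x, 0⟩ : Aff E) ^ k * ⟨1, 1⟩ * ((⟨x, 0⟩ : Aff E) ^ k)⁻¹ = _
  rw [h1]
  ext
  · simp [mul_c, inv_c]
  · simp [mul_v, mul_c, inv_c, inv_v]

/-- the value of the cochain on elements with trivial linear parts -/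
theorem cochain_eq {G : Type} [Group G] {n : ℕ} (u : Fin n → G → E) (χ : Fin n → G →* E)
    (hu : ∀ i g h, u i (g * h) = u i g + χ i g * u i h) (g : Fin n → G) (hg : ∀ i k, χ i (g k) = 1) :
    cochain u g = ∏ i, u i (g i) := by
  have h1 : ∀ i, ∀ j : Fin (n + 1), χ i (Fin.partialProd g j) = 1 := by
    intro i j
    induction j using Fin.induction with
    | zero => rw [Fin.partialProd_zero, map_one]
    | succ j ih => rw [Fin.partialProd_succ, map_mul, ih, hg, one_mul]
  rw [cochain, prodDiff]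
  refine Finset.prod_congr rfl fun i _ => ?_
  rw [Fin.partialProd_succ, hu, h1, one_mul]
  ring

theorem sum_perm [CharP E 2] {n : ℕ} (x : Fin n → E) (hx : Function.Injective x) :
    ∑ σ : Equiv.Perm (Fin n), ∏ i, x i ^ (σ i : ℕ) ≠ 0 := by
  have h1 : (Matrix.vandermonde x).transpose.det = ∑ σ : Equiv.Perm (Fin n), ∏ i, x i ^ (σ i : ℕ) := by
    rw [Matrix.det_apply]
    refine Finset.sum_congr rfl fun σ _ => ?_
    have h2 : ∀ y : E, Equiv.Perm.sign σ • y = y := by
      intro y
      rcases Int.units_eq_one_or (Equiv.Perm.sign σ) with h | h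
      · rw [h, one_smul]
      · rw [h]
        show (-1 : ℤˣ) • y = y
        rw [Units.neg_smul, one_smul, CharTwo.neg_eq]
    rw [h2]
    rfl
  rw [← h1, Matrix.det_transpose]
  exact Matrix.det_vandermonde_ne_zero_iff.2 hx

/-- The homology of the group of Baumslag does not vanish in degree `m + 1`, if there are `m + 1` different elements `x i`
of a field of characteristic two with `∏ x i = 1` and `∏ (1 + x i) = 1`. -/
theorem homology_B [CharP E 2] [Algebra (ZMod 2) E] {m : ℕ} (x y : Fin (m + 1) → Eˣ) (h : ∀ i, (y i : E) = 1 + x i)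
    (hx : Function.Injective fun i => (x i : E)) (px : ∏ i, (x i : E) = 1) (py : ∏ i, (y i : E) = 1) :
    ¬ Subsingleton (groupHomology (triv B) (m + 1)) := by
  have key := homology_ne_zero (G := B) (E := E) (m := m) (fun k : Fin (m + 1) => conj (k : ℕ))
    (fun i j => commute_conj (i : ℕ) (j : ℕ)) (fun i (g : B) => (toAff (x i) (y i) (h i) g).v)
    (fun i (g : B) => (lin.comp (toAff (x i) (y i) (h i))) g)
  refine key ?_ ?_ ?_
  · intro i g g'
    show (toAff (x i) (y i) (h i) (g * g')).v = _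
    rw [map_mul, mul_v]
    rfl
  · intro g
    let θ : B →* Eˣ := ∏ i, linU.comp (toAff (x i) (y i) (h i))
    have h1 : θ = 1 := by
      refine PresentedGroup.ext (rels := rels) fun j => ?_
      show θ (b j) = 1
      have h2 : θ (b j) = ∏ i, (gen (x i) (y i) j).c := by
        rw [MonoidHom.finsetProd_apply]
        refine Finset.prod_congr rfl fun i _ => ?_
        show linU (toAff (x i) (y i) (h i) (b j)) = _
        rw [toAff_b]
        rfl
      rw [h2]
      refine Units.ext ?_
      rw [Units.coe_prod, Units.val_one]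
      fin_cases j
      · simp [gen]
      · simpa [gen] using py
      · simpa [gen] using px
    have h3 : θ g = 1 := by rw [h1]; rfl
    have h4 : ((θ g : Eˣ) : E) = ∏ i, (lin.comp (toAff (x i) (y i) (h i))) g := by
      rw [MonoidHom.finsetProd_apply, Units.coe_prod]
      rfl
    rw [← h4, h3, Units.val_one]
  · have h1 : ∀ σ : Equiv.Perm (Fin (m + 1)),
        cochain (fun i g => (toAff (x i) (y i) (h i) g).v) (fun i => conj (σ i : ℕ)) = ∏ i, (x i : E) ^ (σ i : ℕ) := by
      intro σ
      rw [cochain_eq (fun i g => (toAff (x i) (y i) (h i) g).v) (fun i => lin.comp (toAff (x i) (y i) (h i)))]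
      · refine Finset.prod_congr rfl fun i _ => ?_
        rw [toAff_conj]
      · intro i g g'
        show (toAff (x i) (y i) (h i) (g * g')).v = _
        rw [map_mul, mul_v]
        rfl
      · intro i k
        show lin (toAff (x i) (y i) (h i) (conj (σ k))) = 1
        rw [toAff_conj]
        rfl
    rw [Finset.sum_congr rfl fun σ _ => h1 σ]
    exact sum_perm _ hx

end Pool.Agent.V7H14.QL
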