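import Pool.Agent.V7H14.QL.Grp2

/-!
# The homology of the finitely presented metabelian group of Baumslag does not vanish in high degrees
-/

set_option autoImplicit false

namespace Pool.Agent.V7H14.QL

section

variable {E : Type} [Field E] [CharP E 2]

theorem one_add_ne_zero {x : E} (hx : x ≠ 1) : 1 + x ≠ 0 := by
  intro h
  refine hx ?_
  have h1 : x = -1 := by linear_combination h
  rw [h1, CharTwo.neg_eq]

/-- the involution `x ↦ 1 + x` -/
noncomputable def inv1 (x : {x : Eˣ // x ≠ 1}) : {x : Eˣ // x ≠ 1} :=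
  ⟨Units.mk0 (1 + (x.1 : E)) (one_add_ne_zero fun h => x.2 (Units.ext h)), fun h => by
    have h1 := congrArg (fun z : Eˣ => (z : E)) h
    simp at h1⟩

theorem inv1_inv1 (x : {x : Eˣ // x ≠ 1}) : inv1 (inv1 x) = x := by
  refine Subtype.ext (Units.ext ?_)
  show 1 + (1 + (x.1 : E)) = x.1
  rw [← add_assoc, CharTwo.add_self_eq_zero, zero_add]

theorem prod_ne_one [Fintype E] [DecidableEq E] : ∏ x : {x : Eˣ // x ≠ 1}, ((x.1 : Eˣ) : E) = 1 := by
  have h1 := FiniteField.prod_univ_units_id_eq_neg_one (K := E)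
  rw [← Finset.mul_prod_erase Finset.univ _ (Finset.mem_univ (1 : Eˣ)), one_mul] at h1
  have h2 : ∏ x : {x : Eˣ // x ≠ 1}, (x.1 : Eˣ) = -1 := by
    rw [← h1]
    symm
    refine Finset.prod_subtype _ (fun x => ?_) _
    simp
  have h3 := congrArg (fun z : Eˣ => (z : E)) h2
  simp only [Units.coe_prod, Units.val_neg, Units.val_one] at h3
  rw [h3, CharTwo.neg_eq]

end

/-- The homology of the group of Baumslag modulo two does not vanish in high degrees. -/
theorem homology_B_unbounded (N : ℕ) : ∃ n, N ≤ n ∧ ¬ Subsingleton (groupHomology (triv B) n) := by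
  classical
  let E : Type := GaloisField 2 (N + 2)
  have : Finite E := inferInstanceAs (Finite (GaloisField 2 (N + 2)))
  let _ : Fintype E := Fintype.ofFinite E
  have hc : Fintype.card E = 2 ^ (N + 2) := by
    rw [← Nat.card_eq_fintype_card]
    exact GaloisField.card 2 (N + 2) (by omega)
  have hU : Fintype.card {x : Eˣ // x ≠ 1} = 2 ^ (N + 2) - 1 - 1 := by
    rw [Fintype.card_subtype_compl, Fintype.card_units, hc]
    simp
  have h2 : N + 2 < 2 ^ (N + 2) := Nat.lt_two_pow_self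
  obtain ⟨m, hm⟩ : ∃ m, Fintype.card {x : Eˣ // x ≠ 1} = m + 1 := ⟨2 ^ (N + 2) - 1 - 1 - 1, by omega⟩
  have e : Fin (m + 1) ≃ {x : Eˣ // x ≠ 1} := (Fintype.equivFinOfCardEq hm).symm
  refine ⟨m + 1, by omega, ?_⟩
  refine homology_B (E := E) (fun i => (e i).1) (fun i => (inv1 (e i)).1) (fun i => rfl) ?_ ?_ ?_
  · intro i j hij
    exact e.injective (Subtype.ext (Units.ext hij))
  · rw [Equiv.prod_comp e fun x : {x : Eˣ // x ≠ 1} => ((x.1 : Eˣ) : E)]
    exact prod_ne_one
  · rw [Equiv.prod_comp e fun x : {x : Eˣ // x ≠ 1} => (((inv1 x).1 : Eˣ) : E)]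
    exact (Equiv.prod_comp (Function.Involutive.toPerm inv1 inv1_inv1)
      fun x : {x : Eˣ // x ≠ 1} => ((x.1 : Eˣ) : E)).trans prod_ne_one

end Pool.Agent.V7H14.QL
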