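import Pool.Agent.V7H14.QL.Grp3

/-!
# The group of Baumslag is solvable and torsion-free
-/

set_option autoImplicit false

namespace Pool.Agent.V7H14.QL

/-- the subgroup generated by the conjugates of `a` with the powers of `t` -/
def Npos : Subgroup B := Subgroup.closure (Set.range conj)

theorem conj_mem (k : ℕ) : conj k ∈ Npos := Subgroup.subset_closure ⟨k, rfl⟩

theorem Npos_comm {x y : B} (hx : x ∈ Npos) (hy : y ∈ Npos) : x * y = y * x := by
  have h1 : ∀ x ∈ Npos, ∀ k, x * conj k = conj k * x := by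
    intro x hx k
    refine Subgroup.closure_induction (p := fun x _ => x * conj k = conj k * x) ?_ ?_ ?_ ?_ hx
    · rintro _ ⟨i, rfl⟩
      exact commute_conj i k
    · rw [one_mul, mul_one]
    · intro x y _ _ h h'
      exact (show Commute x (conj k) from h).mul_left h'
    · intro x _ h
      exact (show Commute x (conj k) from h).inv_left
  refine Subgroup.closure_induction (p := fun y _ => x * y = y * x) ?_ ?_ ?_ ?_ hy
  · rintro _ ⟨i, rfl⟩
    exact h1 x hx i
  · rw [one_mul, mul_one]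
  · intro y z _ _ h h'
    exact (show Commute x y from h).mul_right h'
  · intro y _ h
    exact (show Commute x y from h).inv_right

theorem s_mem {x : B} (hx : x ∈ Npos) : b 1 * x * (b 1)⁻¹ ∈ Npos := by
  have h : Npos ≤ Npos.comap (MulAut.conj (b 1)).toMonoidHom := by
    refine (Subgroup.closure_le _).2 ?_
    rintro _ ⟨k, rfl⟩
    show b 1 * conj k * (b 1)⁻¹ ∈ Npos
    rw [conj_s]
    exact mul_mem (conj_mem k) (conj_mem (k + 1))
  exact h hx

theorem t_mem {x : B} (hx : x ∈ Npos) : b 2 * x * (b 2)⁻¹ ∈ Npos := by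
  have h : Npos ≤ Npos.comap (MulAut.conj (b 2)).toMonoidHom := by
    refine (Subgroup.closure_le _).2 ?_
    rintro _ ⟨k, rfl⟩
    show b 2 * conj k * (b 2)⁻¹ ∈ Npos
    rw [conj_succ]
    exact conj_mem (k + 1)
  exact h hx

/-- the elements `s ^ i t ^ l` -/
def w (i l : ℕ) : B := b 1 ^ i * b 2 ^ l

theorem w_mul (i l i' l' : ℕ) : w i l * w i' l' = w (i + i') (l + l') := by
  have h : b 2 ^ l * b 1 ^ i' = b 1 ^ i' * b 2 ^ l :=
    ((show Commute (b 1) (b 2) from rel1).pow_pow i' l).symm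
  calc w i l * w i' l' = b 1 ^ i * (b 2 ^ l * b 1 ^ i') * b 2 ^ l' := by simp only [w, mul_assoc]
    _ = _ := by rw [h, w, pow_add, pow_add]; simp only [mul_assoc]

theorem w_one_zero : w 1 0 = b 1 := by simp [w]
theorem w_zero_one : w 0 1 = b 2 := by simp [w]
theorem w_zero_zero : w 0 0 = 1 := by simp [w]

theorem w_mem (i l : ℕ) {x : B} (hx : x ∈ Npos) : w i l * x * (w i l)⁻¹ ∈ Npos := by
  induction i with
  | zero =>
    induction l with
    | zero => simpa [w] using hx
    | succ l ih =>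
      have h : w 0 (l + 1) * x * (w 0 (l + 1))⁻¹ = b 2 * (w 0 l * x * (w 0 l)⁻¹) * (b 2)⁻¹ := by
        have : w 0 (l + 1) = b 2 * w 0 l := by rw [← w_zero_one, w_mul, Nat.add_comm 1 l]
        rw [this, mul_inv_rev]
        simp only [mul_assoc]
      rw [h]
      exact t_mem ih
  | succ i ih =>
    have h : w (i + 1) l * x * (w (i + 1) l)⁻¹ = b 1 * (w i l * x * (w i l)⁻¹) * (b 1)⁻¹ := by
      have : w (i + 1) l = b 1 * w i l := by rw [← w_one_zero, w_mul, Nat.add_comm 1 i, Nat.zero_add]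
      rw [this, mul_inv_rev]
      simp only [mul_assoc]
    rw [h]
    exact s_mem ih

theorem w_comm (i l i' l' : ℕ) : w i l * w i' l' = w i' l' * w i l := by
  rw [w_mul, w_mul, Nat.add_comm i, Nat.add_comm l]

/-- the normal abelian subgroup -/
def N : Subgroup B where
  carrier := {g | ∃ i l, w i l * g * (w i l)⁻¹ ∈ Npos}
  one_mem' := ⟨0, 0, by simp [one_mem]⟩
  mul_mem' := by
    rintro g g' ⟨i, l, h⟩ ⟨i', l', h'⟩
    refine ⟨i + i', l + l', ?_⟩
    have h1 : w (i + i') (l + l') * (g * g') * (w (i + i') (l + l'))⁻¹ =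
        (w i' l' * (w i l * g * (w i l)⁻¹) * (w i' l')⁻¹) * (w i l * (w i' l' * g' * (w i' l')⁻¹) * (w i l)⁻¹) := by
      have h2 : w (i + i') (l + l') = w i' l' * w i l := by rw [w_mul, Nat.add_comm i', Nat.add_comm l']
      have h3 : w i l * w i' l' = w i' l' * w i l := w_comm _ _ _ _
      have h4 : (w i' l')⁻¹ * (w i l)⁻¹ = (w i l)⁻¹ * (w i' l')⁻¹ := by
        rw [← mul_inv_rev, ← mul_inv_rev, h3]
      calc w (i + i') (l + l') * (g * g') * (w (i + i') (l + l'))⁻¹
          = (w i' l' * w i l) * g * g' * ((w i' l' * w i l))⁻¹ := by rw [h2]; group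
        _ = (w i' l' * w i l) * g * ((w i l)⁻¹ * (w i' l')⁻¹) * (w i' l' * w i l) * g' * ((w i l)⁻¹ * (w i' l')⁻¹) := by
            group
        _ = (w i' l' * w i l) * g * ((w i l)⁻¹ * (w i' l')⁻¹) * (w i l * w i' l') * g' * ((w i' l')⁻¹ * (w i l)⁻¹) := by
            rw [h3, h4]
        _ = _ := by group
    rw [h1]
    exact mul_mem (w_mem _ _ h) (w_mem _ _ h')
  inv_mem' := by
    rintro g ⟨i, l, h⟩
    refine ⟨i, l, ?_⟩
    have h1 : w i l * g⁻¹ * (w i l)⁻¹ = (w i l * g * (w i l)⁻¹)⁻¹ := by group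
    rw [h1]
    exact inv_mem h

theorem mem_N {g : B} : g ∈ N ↔ ∃ i l, w i l * g * (w i l)⁻¹ ∈ Npos := Iff.rfl

theorem N_comm {x y : B} (hx : x ∈ N) (hy : y ∈ N) : x * y = y * x := by
  obtain ⟨i, l, h⟩ := hx
  obtain ⟨i', l', h'⟩ := hy
  have h1 := w_mem i' l' h
  have h2 := w_mem i l h'
  have h3 : w i' l' * (w i l * x * (w i l)⁻¹) * (w i' l')⁻¹ = (w i' l' * w i l) * x * (w i' l' * w i l)⁻¹ := by group
  have h4 : w i l * (w i' l' * y * (w i' l')⁻¹) * (w i l)⁻¹ = (w i' l' * w i l) * y * (w i' l' * w i l)⁻¹ := by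
    rw [← w_comm i l i' l']
    group
  rw [h3] at h1
  rw [h4] at h2
  have h5 := Npos_comm h1 h2
  generalize w i' l' * w i l = v at h5
  have h6 : v * (x * y) * v⁻¹ = v * (y * x) * v⁻¹ := by
    calc v * (x * y) * v⁻¹ = v * x * v⁻¹ * (v * y * v⁻¹) := by group
      _ = v * y * v⁻¹ * (v * x * v⁻¹) := h5
      _ = _ := by group
  exact mul_left_cancel (mul_right_cancel h6)

theorem conj_w_mem_iff (i l : ℕ) (g : B) : g ∈ N ↔ w i l * g * (w i l)⁻¹ ∈ N := by
  constructor
  · rintro ⟨i', l', h⟩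
    refine ⟨i', l', ?_⟩
    have h1 : w i' l' * (w i l * g * (w i l)⁻¹) * (w i' l')⁻¹ = w i l * (w i' l' * g * (w i' l')⁻¹) * (w i l)⁻¹ := by
      have h2 := w_comm i' l' i l
      calc w i' l' * (w i l * g * (w i l)⁻¹) * (w i' l')⁻¹ = (w i' l' * w i l) * g * (w i' l' * w i l)⁻¹ := by group
        _ = (w i l * w i' l') * g * (w i l * w i' l')⁻¹ := by rw [h2]
        _ = _ := by group
    rw [h1]
    exact w_mem _ _ h
  · rintro ⟨i', l', h⟩
    refine ⟨i' + i, l' + l, ?_⟩
    rw [← w_mul]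
    have h1 : w i' l' * w i l * g * (w i' l' * w i l)⁻¹ = w i' l' * (w i l * g * (w i l)⁻¹) * (w i' l')⁻¹ := by group
    rw [h1]
    exact h

theorem b0_mem : b 0 ∈ N := ⟨0, 0, by
  have h : b 0 = conj 0 := by simp [conj]
  rw [w_zero_zero, one_mul, inv_one, mul_one, h]
  exact conj_mem 0⟩

instance N_normal : N.Normal := by
  have h1 : Subgroup.normalizer (N : Set B) = ⊤ := by
    rw [eq_top_iff, ← PresentedGroup.closure_range_of rels, Subgroup.closure_le]
    rintro _ ⟨j, rfl⟩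
    show b j ∈ Subgroup.normalizer (N : Set B)
    rw [Subgroup.mem_normalizer_iff]
    fin_cases j
    · intro h
      exact ⟨fun hh => N.mul_mem (N.mul_mem b0_mem hh) (N.inv_mem b0_mem), fun hh => by
        have := N.mul_mem (N.mul_mem (N.inv_mem b0_mem) hh) b0_mem
        have e : (b 0)⁻¹ * (b 0 * h * (b 0)⁻¹) * b 0 = h := by group
        rw [← e]
        exact this⟩
    · intro h
      have := conj_w_mem_iff 1 0 h
      rw [w_one_zero] at this
      exact this
    · intro h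
      have := conj_w_mem_iff 0 1 h
      rw [w_zero_one] at this
      exact this
  exact Subgroup.normalizer_eq_top_iff.1 h1

end Pool.Agent.V7H14.QL
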