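import Pool.Agent.V7H14.QL.Grp4

/-!
# The group of Baumslag is solvable and torsion-free (second part)
-/

set_option autoImplicit false

namespace Pool.Agent.V7H14.QL

/-- the exponents of `s` and `t` -/
abbrev Z2 : Type := Multiplicative ℤ × Multiplicative ℤ

def degGen : Fin 3 → Z2 := ![1, (Multiplicative.ofAdd 1, 1), (1, Multiplicative.ofAdd 1)]

theorem degGen_rels : ∀ r ∈ rels, FreeGroup.lift degGen r = 1 := by
  intro r hr
  simp only [rels, Set.mem_insert_iff, Set.mem_singleton_iff] at hr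
  rcases hr with rfl | rfl | rfl
  all_goals
    simp only [fa, fs, ft, fc, map_mul, map_inv, FreeGroup.lift_apply_of]
    simp [degGen]

/-- the exponents of `s` and `t` -/
def deg : B →* Z2 := PresentedGroup.toGroup degGen_rels

theorem deg_b (i : Fin 3) : deg (b i) = degGen i := PresentedGroup.toGroup.of _

theorem ker_deg_le : deg.ker ≤ N := by
  have hc : Commute (QuotientGroup.mk' N (b 1)) (QuotientGroup.mk' N (b 2)) :=
    (show Commute (b 1) (b 2) from rel1).map (QuotientGroup.mk' N)
  let ψ : Z2 →* B ⧸ N := MonoidHom.noncommCoprod (zpowersHom _ (QuotientGroup.mk' N (b 1)))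
    (zpowersHom _ (QuotientGroup.mk' N (b 2))) (fun m n => by
      rw [zpowersHom_apply, zpowersHom_apply]
      exact hc.zpow_zpow _ _)
  have h1 : QuotientGroup.mk' N = ψ.comp deg := by
    refine PresentedGroup.ext (rels := rels) fun j => ?_
    show QuotientGroup.mk' N (b j) = ψ (deg (b j))
    rw [deg_b]
    fin_cases j
    · show QuotientGroup.mk' N (b 0) = ψ 1
      rw [map_one, ← MonoidHom.mem_ker, QuotientGroup.ker_mk']
      exact b0_mem
    · show QuotientGroup.mk' N (b 1) = ψ (Multiplicative.ofAdd 1, 1)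
      rw [MonoidHom.noncommCoprod_apply]
      simp [zpowersHom_apply]
    · show QuotientGroup.mk' N (b 2) = ψ (1, Multiplicative.ofAdd 1)
      rw [MonoidHom.noncommCoprod_apply]
      simp [zpowersHom_apply]
  intro g hg
  rw [← QuotientGroup.ker_mk' N, MonoidHom.mem_ker, h1]
  show ψ (deg g) = 1
  rw [MonoidHom.mem_ker.1 hg, map_one]

theorem solvable_B : Group.IsSolvable B := by
  have h1 : Group.IsSolvable N := by
    refine Group.isSolvable_of_comm fun x y => ?_
    exact Subtype.ext (N_comm x.2 y.2)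
  refine Group.isSolvable_of_ker_le_range N.subtype deg ?_
  rw [Subgroup.range_subtype]
  exact ker_deg_le

/-! ### torsion -/

/-- the affine representation over the rational functions: `t ↦ X z`, `s ↦ (1 + X) z` -/
noncomputable def xu : (RatFunc ℚ)ˣ := Units.mk0 RatFunc.X RatFunc.X_ne_zero

theorem one_add_X_ne_zero : (1 + RatFunc.X : RatFunc ℚ) ≠ 0 := by
  have h1 : (1 + RatFunc.X : RatFunc ℚ) = algebraMap (Polynomial ℚ) (RatFunc ℚ) (1 + Polynomial.X) := by
    rw [map_add, map_one, RatFunc.algebraMap_X]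
  rw [h1]
  intro h
  have h2 := (map_eq_zero_iff _ (RatFunc.algebraMap_injective ℚ)).1 h
  have h3 := congrArg (fun p : Polynomial ℚ => p.coeff 0) h2
  simp at h3

noncomputable def yu : (RatFunc ℚ)ˣ := Units.mk0 (1 + RatFunc.X) one_add_X_ne_zero

noncomputable def rep : B →* Aff (RatFunc ℚ) := toAff xu yu rfl

theorem rep_conj (k : ℕ) : rep (conj k) = ⟨1, (RatFunc.X : RatFunc ℚ) ^ k⟩ := toAff_conj xu yu rfl k

theorem rep_c {g : B} (hg : g ∈ Npos) : (rep g).c = 1 := by
  refine Subgroup.closure_induction (p := fun g _ => (rep g).c = 1) ?_ ?_ ?_ ?_ hg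
  · rintro _ ⟨k, rfl⟩
    rw [rep_conj]
  · rw [map_one]
    rfl
  · intro x y _ _ hx hy
    rw [map_mul, mul_c, hx, hy, one_mul]
  · intro x _ hx
    rw [map_inv, inv_c, hx, inv_one]

noncomputable instance : CommGroup Npos :=
  { (inferInstance : Group Npos) with mul_comm := fun x y => Subtype.ext (Npos_comm x.2 y.2) }

/-- the elements with given exponents -/
noncomputable def Psi : (ℕ →₀ ℤ) →+ Additive Npos :=
  Finsupp.liftAddHom fun k => zmultiplesHom (Additive Npos) (Additive.ofMul ⟨conj k, conj_mem k⟩)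

theorem Psi_single (k : ℕ) (n : ℤ) : Psi (Finsupp.single k n) = n • Additive.ofMul (⟨conj k, conj_mem k⟩ : Npos) := by
  rw [Psi, Finsupp.liftAddHom_apply_single]
  rfl

theorem Psi_surj (g : B) (hg : g ∈ Npos) : ∃ f, Psi f = Additive.ofMul (⟨g, hg⟩ : Npos) := by
  refine Subgroup.closure_induction (p := fun g hg => ∃ f, Psi f = Additive.ofMul (⟨g, hg⟩ : Npos)) ?_ ?_ ?_ ?_ hg
  · rintro _ ⟨k, rfl⟩
    exact ⟨Finsupp.single k 1, by rw [Psi_single, one_smul]⟩
  · exact ⟨0, by rw [map_zero]; rfl⟩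
  · rintro x y hx hy ⟨f, hf⟩ ⟨f', hf'⟩
    exact ⟨f + f', by rw [map_add, hf, hf']; rfl⟩
  · rintro x hx ⟨f, hf⟩
    exact ⟨-f, by rw [map_neg, hf]; rfl⟩

/-- the translation part -/
noncomputable def V : Additive Npos →+ RatFunc ℚ where
  toFun g := (rep ((Additive.toMul g : Npos) : B)).v
  map_zero' := by
    show (rep ((1 : Npos) : B)).v = 0
    rw [Subgroup.coe_one, map_one]
    rfl
  map_add' x y := by
    show (rep (((Additive.toMul x * Additive.toMul y : Npos)) : B)).v = _
    rw [Subgroup.coe_mul, map_mul, mul_v, rep_c (Additive.toMul x).2, Units.val_one, one_mul]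

/-- the polynomial -/
noncomputable def Pol : (ℕ →₀ ℤ) →+ Polynomial ℚ :=
  Finsupp.liftAddHom fun k => (Polynomial.monomial k).toAddMonoidHom.comp (Int.castAddHom ℚ)

theorem coeff_Pol (f : ℕ →₀ ℤ) (k : ℕ) : (Pol f).coeff k = f k := by
  induction f using Finsupp.induction_linear with
  | zero => simp
  | add f g hf hg => rw [map_add, Polynomial.coeff_add, hf, hg]; simp
  | single i n =>
    rw [Pol, Finsupp.liftAddHom_apply_single]
    show (Polynomial.monomial i ((n : ℤ) : ℚ)).coeff k = _
    rw [Polynomial.coeff_monomial, Finsupp.single_apply]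
    split_ifs <;> simp

theorem V_Psi (f : ℕ →₀ ℤ) : V (Psi f) = algebraMap (Polynomial ℚ) (RatFunc ℚ) (Pol f) := by
  induction f using Finsupp.induction_linear with
  | zero => simp
  | add f g hf hg => rw [map_add, map_add, map_add, map_add, hf, hg]
  | single i n =>
    rw [Psi_single, map_zsmul, Pol, Finsupp.liftAddHom_apply_single]
    show n • (rep (conj i)).v = algebraMap (Polynomial ℚ) (RatFunc ℚ) (Polynomial.monomial i ((n : ℤ) : ℚ))
    rw [rep_conj, ← Polynomial.C_mul_X_pow_eq_monomial, map_mul, map_pow, RatFunc.algebraMap_X, zsmul_eq_mul]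
    congr 1
    rw [Polynomial.C_eq_intCast, map_intCast]

theorem Npos_torsion {g : B} (hg : g ∈ Npos) {n : ℕ} (hn : 0 < n) (h : g ^ n = 1) : g = 1 := by
  obtain ⟨f, hf⟩ := Psi_surj g hg
  have h1 : n • Additive.ofMul (⟨g, hg⟩ : Npos) = 0 := by
    rw [← ofMul_pow]
    have : (⟨g, hg⟩ : Npos) ^ n = 1 := Subtype.ext h
    rw [this]
    rfl
  have h2 : n • V (Psi f) = 0 := by
    rw [← map_nsmul, hf, h1, map_zero]
  have h3 : V (Psi f) = 0 := by
    rw [nsmul_eq_mul] at h2
    rcases mul_eq_zero.1 h2 with h4 | h4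
    · exact absurd (Nat.cast_eq_zero.1 h4) hn.ne'
    · exact h4
  rw [V_Psi] at h3
  have h4 := (map_eq_zero_iff _ (RatFunc.algebraMap_injective ℚ)).1 h3
  have h5 : f = 0 := by
    ext k
    have := coeff_Pol f k
    rw [h4, Polynomial.coeff_zero] at this
    exact_mod_cast this.symm
  rw [h5, map_zero] at hf
  have h6 : (⟨g, hg⟩ : Npos) = 1 := Additive.ofMul.injective hf.symm
  exact congrArg Subtype.val h6

/-- The group of Baumslag is torsion-free. -/
theorem torsionFree_B (g : B) (n : ℕ) (hn : 0 < n) (h : g ^ n = 1) : g = 1 := by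
  have h1 : deg g = 1 := by
    have h2 : (deg g) ^ n = 1 := by rw [← map_pow, h, map_one]
    have h3 : ∀ z : Multiplicative ℤ, z ^ n = 1 → z = 1 := by
      intro z hz
      have h4 : (n : ℤ) * Multiplicative.toAdd z = 0 := by
        have := congrArg Multiplicative.toAdd hz
        rw [toAdd_pow, nsmul_eq_mul] at this
        exact this
      rcases mul_eq_zero.1 h4 with h5 | h5
      · exact absurd (Int.natCast_eq_zero.1 h5) hn.ne'
      · exact Multiplicative.toAdd.injective h5
    exact Prod.ext (h3 _ (congrArg Prod.fst h2)) (h3 _ (congrArg Prod.snd h2))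
  obtain ⟨i, l, hg⟩ := ker_deg_le (MonoidHom.mem_ker.2 h1)
  have h2 : (w i l * g * (w i l)⁻¹) ^ n = 1 := by
    rw [conj_pow, h, mul_one, mul_inv_cancel]
  have h3 := Npos_torsion hg hn h2
  have h4 : w i l * g = w i l := mul_inv_eq_one.1 h3
  exact mul_eq_left.1 h4

end Pool.Agent.V7H14.QL
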