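import Mathlib

/-!
# Classes in the homology of a group with coefficients modulo two
-/

set_option autoImplicit false

namespace Pool.Agent.V7H14.QL

variable {E X : Type} [CommRing E]

/-- the product of the differences of the values of `u i` at consecutive points -/
def prodDiff {n : ℕ} (u : Fin n → X → E) (h : Fin (n + 1) → X) : E :=
  ∏ i, (u i (h i.succ) - u i (h i.castSucc))

theorem prodDiff_succ {n : ℕ} (u : Fin (n + 1) → X → E) (h : Fin (n + 2) → X) :
    prodDiff u h = (u 0 (h 1) - u 0 (h 0)) * prodDiff (fun i => u i.succ) (fun i => h i.succ) := by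
  rw [prodDiff, Fin.prod_univ_succ]
  rfl

theorem sum_prodDiff [CharP E 2] : ∀ (n : ℕ) (u : Fin n → X → E) (h : Fin (n + 2) → X),
    ∑ j : Fin (n + 2), prodDiff u (fun i => h (j.succAbove i)) = 0
  | 0, u, h => by
    simp only [prodDiff, Finset.univ_eq_empty, Finset.prod_empty, Finset.sum_const, Finset.card_univ, Fintype.card_fin]
    have h2 : (2 : E) = 0 := CharTwo.two_eq_zero
    simpa using h2
  | n + 1, u, h => by
    have ih := sum_prodDiff n (fun i => u i.succ) (fun i => h i.succ)
    rw [Fin.sum_univ_succ] at ih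
    rw [Fin.sum_univ_succ, Fin.sum_univ_succ]
    have h0 : prodDiff u (fun i => h ((0 : Fin (n + 1 + 2)).succAbove i)) =
        (u 0 (h 2) - u 0 (h 1)) * prodDiff (fun i => u i.succ) (fun i => h ((0 : Fin (n + 2)).succAbove i).succ) := by
      rw [prodDiff_succ]
      rfl
    have h1 : prodDiff u (fun i => h ((Fin.succ (0 : Fin (n + 2))).succAbove i)) =
        (u 0 (h 2) - u 0 (h 0)) * prodDiff (fun i => u i.succ) (fun i => h ((0 : Fin (n + 2)).succAbove i).succ) := by
      rw [prodDiff_succ]
      rfl
    have h2 : ∀ k : Fin (n + 1), prodDiff u (fun i => h (k.succ.succ.succAbove i)) =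
        (u 0 (h 1) - u 0 (h 0)) * prodDiff (fun i => u i.succ) (fun i => h (k.succ.succAbove i).succ) := by
      intro k
      rw [prodDiff_succ]
      have e1 : k.succ.succ.succAbove 0 = 0 := Fin.succ_succAbove_zero _
      have e2 : k.succ.succ.succAbove 1 = 1 := by
        have : (1 : Fin (n + 2)) = Fin.succ 0 := rfl
        rw [this, Fin.succ_succAbove_succ, Fin.succ_succAbove_zero]
        rfl
      rw [e1, e2]
      congr 2
      funext i
      rw [Fin.succ_succAbove_succ]
    rw [h0, h1, Finset.sum_congr rfl fun k _ => h2 k, ← Finset.mul_sum]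
    have h3 := eq_neg_of_add_eq_zero_right ih
    rw [h3]
    have h4 : ∀ x : E, x + x = 0 := fun x => CharTwo.add_self_eq_zero x
    linear_combination (h4 ((u 0 (h 2) - u 0 (h 1)) *
      prodDiff (fun i => u i.succ) (fun i => h ((0 : Fin (n + 2)).succAbove i).succ)))

variable {G : Type} [Group G]

theorem prodDiff_mul {n : ℕ} (u χ : Fin n → G → E) (hu : ∀ i g h, u i (g * h) = u i g + χ i g * u i h)
    (hχ : ∀ g, ∏ i, χ i g = 1) (g : G) (h : Fin (n + 1) → G) : prodDiff u (fun i => g * h i) = prodDiff u h := by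
  have h1 : prodDiff u (fun i => g * h i) = ∏ i, (χ i g * (u i (h i.succ) - u i (h i.castSucc))) := by
    refine Finset.prod_congr rfl fun i _ => ?_
    show u i (g * h i.succ) - u i (g * h i.castSucc) = _
    rw [hu, hu]
    ring
  rw [h1, Finset.prod_mul_distrib, hχ, one_mul]
  rfl

/-- the cochain -/
def cochain {n : ℕ} (u : Fin n → G → E) (g : Fin n → G) : E := prodDiff u (Fin.partialProd g)

theorem cochain_cocycle [CharP E 2] {n : ℕ} (u χ : Fin n → G → E) (hu : ∀ i g h, u i (g * h) = u i g + χ i g * u i h)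
    (hχ : ∀ g, ∏ i, χ i g = 1) (g : Fin (n + 1) → G) :
    cochain u (fun i => g i.succ) + ∑ j : Fin (n + 1), cochain u (Fin.contractNth j (· * ·) g) = 0 := by
  have h1 := sum_prodDiff n u (Fin.partialProd g)
  rw [Fin.sum_univ_succ] at h1
  rw [← h1]
  congr 1
  · rw [cochain, ← prodDiff_mul u χ hu hχ (g 0)]
    congr 1
    funext i
    rw [Fin.zero_succAbove, Fin.partialProd_succ']
    rfl
  · refine Finset.sum_congr rfl fun j _ => ?_
    rw [cochain, Fin.partialProd_contractNth]
    rfl

end Pool.Agent.V7H14.QL
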