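import Pool.Agent.V7H14.QL.Hom1

/-!
# Classes in the homology of a group with coefficients modulo two: the cycle
-/

set_option autoImplicit false

open CategoryTheory Finsupp

namespace Pool.Agent.V7H14.QL

variable {G : Type} [Group G]

/-- the trivial module -/
noncomputable abbrev triv (G : Type) [Group G] : Rep.{0} (ZMod 2) G := Rep.trivial (ZMod 2) G (ZMod 2)

theorem contract_swap {m : ℕ} (a : Fin (m + 1) → G) (ha : ∀ i j, a i * a j = a j * a i)
    (σ : Equiv.Perm (Fin (m + 1))) (j : Fin m) :
    Fin.contractNth j.castSucc (· * ·) (fun i => a ((σ * Equiv.swap j.castSucc j.succ) i)) =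
      Fin.contractNth j.castSucc (· * ·) (fun i => a (σ i)) := by
  funext k
  simp only [Fin.contractNth, Equiv.Perm.mul_apply]
  have hj : ((j.castSucc : Fin (m + 1)) : ℕ) = j := rfl
  split_ifs with h1 h2
  · rw [Equiv.swap_apply_of_ne_of_ne]
    · intro h
      rw [Fin.ext_iff] at h
      simp at h h1
      omega
    · intro h
      rw [Fin.ext_iff] at h
      simp at h h1
      omega
  · have h3 : k = j := Fin.ext (by rw [h2, hj])
    subst h3
    rw [Equiv.swap_apply_left, Equiv.swap_apply_right, ha]
  · rw [Equiv.swap_apply_of_ne_of_ne]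
    · intro h
      rw [Fin.ext_iff] at h
      simp at h h1 h2
      omega
    · intro h
      rw [Fin.ext_iff] at h
      simp at h h1 h2
      omega

theorem sum_perm_eq_zero {m : ℕ} {M : Type} [AddCommMonoid M] (F : Equiv.Perm (Fin (m + 1)) → M) (j : Fin m)
    (h2 : ∀ σ, F σ + F σ = 0) (hF : ∀ σ, F (σ * Equiv.swap j.castSucc j.succ) = F σ) : ∑ σ, F σ = 0 := by
  refine Finset.sum_involution (fun σ _ => σ * Equiv.swap j.castSucc j.succ) ?_ ?_ ?_ ?_
  · intro σ _
    rw [hF, h2]
  · intro σ _ _ h
    have h3 : Equiv.swap j.castSucc j.succ = 1 := mul_eq_left.1 h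
    rw [Equiv.swap_eq_one_iff] at h3
    exact absurd h3 (Fin.castSucc_lt_succ).ne
  · intro σ _
    exact Finset.mem_univ _
  · intro σ _
    show σ * _ * _ = σ
    rw [mul_assoc, Equiv.swap_mul_self, mul_one]

theorem single_add_self {X : Type} (g : X) : (single g (1 : ZMod 2) + single g 1 : X →₀ ZMod 2) = 0 := by
  rw [← single_add]
  have : (1 : ZMod 2) + 1 = 0 := rfl
  rw [this, single_zero]

/-- the cycle -/
noncomputable def cyc {m : ℕ} (a : Fin (m + 1) → G) : (Fin (m + 1) → G) →₀ ZMod 2 :=
  ∑ σ : Equiv.Perm (Fin (m + 1)), single (fun i => a (σ i)) 1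

theorem d_cyc {m : ℕ} (a : Fin (m + 1) → G) (ha : ∀ i j, a i * a j = a j * a i) :
    groupHomology.inhomogeneousChains.d (triv G) m (cyc a) = 0 := by
  have h1 : ∀ g : Fin (m + 1) → G, groupHomology.inhomogeneousChains.d (triv G) m (single g (1 : ZMod 2)) =
      (single (fun i => g i.succ) (1 : ZMod 2) +
        ∑ j : Fin (m + 1), single (Fin.contractNth j (· * ·) g) (1 : ZMod 2) : (Fin m → G) →₀ ZMod 2) := by
    intro g
    refine (groupHomology.inhomogeneousChains.d_single (A := triv G) m g (1 : ZMod 2)).trans ?_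
    have h2 : ∀ n : ℕ, (-1 : ZMod 2) ^ n = 1 := by
      intro n
      have : (-1 : ZMod 2) = 1 := rfl
      rw [this, one_pow]
    simp only [h2, one_smul]
    rfl
  rw [cyc, map_sum, Finset.sum_congr rfl fun σ _ => h1 _, Finset.sum_add_distrib, Finset.sum_comm,
    Fin.sum_univ_castSucc]
  have h3 : ∀ j : Fin m, ∑ σ : Equiv.Perm (Fin (m + 1)),
      (single (Fin.contractNth j.castSucc (· * ·) fun i => a (σ i)) (1 : ZMod 2) : (Fin m → G) →₀ ZMod 2) = 0 := by
    intro j
    refine sum_perm_eq_zero _ j (fun σ => single_add_self _) fun σ => ?_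
    rw [contract_swap a ha σ j]
  rw [Finset.sum_congr rfl fun j _ => h3 j, Finset.sum_const_zero, zero_add]
  have h4 : ∀ σ : Equiv.Perm (Fin (m + 1)), (Fin.contractNth (Fin.last m) (· * ·) fun i => a (σ i)) =
      fun i : Fin m => a (σ i.castSucc) := by
    intro σ
    funext k
    simp only [Fin.contractNth]
    rw [if_pos]
    simp
  simp only [h4]
  have h5 : ∑ σ : Equiv.Perm (Fin (m + 1)), (single (fun i : Fin m => a (σ i.succ)) (1 : ZMod 2) : (Fin m → G) →₀ ZMod 2) =
      ∑ σ : Equiv.Perm (Fin (m + 1)), single (fun i : Fin m => a (σ i.castSucc)) (1 : ZMod 2) := by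
    rw [← Equiv.sum_comp (Equiv.mulRight (finRotate (m + 1)))
      (fun σ : Equiv.Perm (Fin (m + 1)) => (single (fun i : Fin m => a (σ i.castSucc)) (1 : ZMod 2) : (Fin m → G) →₀ ZMod 2))]
    refine Finset.sum_congr rfl fun σ _ => ?_
    congr 1
    funext i
    show a (σ i.succ) = a (σ (finRotate (m + 1) i.castSucc))
    rw [finRotate_of_lt (by simp)]
    congr 2
  rw [h5, ← Finset.sum_add_distrib]
  exact Finset.sum_eq_zero fun σ _ => single_add_self _

variable {E : Type} [CommRing E] [Algebra (ZMod 2) E] [CharP E 2]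

theorem pairing_d {n : ℕ} (u χ : Fin n → G → E) (hu : ∀ i g h, u i (g * h) = u i g + χ i g * u i h)
    (hχ : ∀ g, ∏ i, χ i g = 1) (y : (Fin (n + 1) → G) →₀ ZMod 2) :
    Finsupp.linearCombination (ZMod 2) (cochain u) (groupHomology.inhomogeneousChains.d (triv G) n y) = 0 := by
  induction y using Finsupp.induction_linear with
  | zero => simp
  | add y z hy hz =>
    have h1 : groupHomology.inhomogeneousChains.d (triv G) n (y + z) =
      groupHomology.inhomogeneousChains.d (triv G) n y + groupHomology.inhomogeneousChains.d (triv G) n z := map_add _ _ _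
    rw [h1, map_add, hy, hz, add_zero]
  | single g b =>
    have h2 : ∀ n : ℕ, (-1 : ZMod 2) ^ n = 1 := by
      intro n
      have : (-1 : ZMod 2) = 1 := rfl
      rw [this, one_pow]
    have h1 : groupHomology.inhomogeneousChains.d (triv G) n (single g b) =
      (single (fun i => g i.succ) b +
        ∑ j : Fin (n + 1), single (Fin.contractNth j (· * ·) g) b : (Fin n → G) →₀ ZMod 2) := by
      refine (groupHomology.inhomogeneousChains.d_single (A := triv G) n g b).trans ?_
      simp only [h2, one_smul]
      rfl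
    rw [h1, map_add, map_sum, Finsupp.linearCombination_single,
      Finset.sum_congr rfl fun j _ => Finsupp.linearCombination_single _ _ _, ← Finset.smul_sum, ← smul_add,
      cochain_cocycle u χ hu hχ, smul_zero]

/-- The homology of a group with coefficients modulo two is not zero in degree `n`, if there are commuting elements
`a i` and cocycles `u i` with values in characters with the product `1` such that the permanent of the matrix of the
values does not vanish. -/
theorem homology_ne_zero {m : ℕ} (a : Fin (m + 1) → G) (ha : ∀ i j, a i * a j = a j * a i)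
    (u χ : Fin (m + 1) → G → E) (hu : ∀ i g h, u i (g * h) = u i g + χ i g * u i h) (hχ : ∀ g, ∏ i, χ i g = 1)
    (hne : ∑ σ : Equiv.Perm (Fin (m + 1)), cochain u (fun i => a (σ i)) ≠ 0) :
    ¬ Subsingleton (groupHomology (triv G) (m + 1)) := by
  intro hs
  have h0 : Limits.IsZero (groupHomology (triv G) (m + 1)) := ModuleCat.isZero_of_subsingleton _
  have h1 : (groupHomology.inhomogeneousChains (triv G)).ExactAt (m + 1) :=
    (HomologicalComplex.exactAt_iff_isZero_homology _ _).2 h0
  rw [HomologicalComplex.exactAt_iff' _ (m + 2) (m + 1) m (by simp) (by simp)] at h1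
  have h2 := (ShortComplex.moduleCat_exact_iff _).1 h1 (cyc a) (by
    show (groupHomology.inhomogeneousChains (triv G)).d (m + 1) m (cyc a) = 0
    rw [groupHomology.inhomogeneousChains.d_def]
    exact d_cyc a ha)
  obtain ⟨y, hy⟩ := h2
  have h3 : groupHomology.inhomogeneousChains.d (triv G) (m + 1) y = cyc a := by
    rw [← groupHomology.inhomogeneousChains.d_def]
    exact hy
  have h4 := pairing_d u χ hu hχ y
  rw [h3, cyc, map_sum, Finset.sum_congr rfl fun σ _ => Finsupp.linearCombination_single _ _ _] at h4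
  simp only [one_smul] at h4
  exact hne h4

end Pool.Agent.V7H14.QL
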