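import Pool.Agent.V7H14.QL.Def

/-!
# The Quillen-Lichtenbaum dimension of smooth categories: proofs
-/

set_option autoImplicit false

open CategoryTheory

namespace Pool.Agent.V7H14.QL

variable {T : KTheory}

/-- The multiplication by the Bott element is bijective where the comparison maps are bijective. -/
theorem bott_bijective (hT : Facts T) {A : T.Cat} {m : ℕ} (hm : 1 ≤ m) {n : ℤ}
    (h1 : Bij (T.comp A m n)) (h2 : Bij (T.comp A m (n + 2))) : Bij (T.bott A m n) := by
  have h3 : Function.Bijective (fun x => T.comp A m (n + 2) (T.bott A m n x)) := by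
    have h4 : (fun x => T.comp A m (n + 2) (T.bott A m n x)) = fun x => T.bottTop A m n (T.comp A m n x) :=
      funext fun x => ConcreteCategory.congr_hom (hT.natural A m n hm) x
    rw [h4]
    exact Function.Bijective.comp (hT.periodic A m n hm) h1
  exact (Function.Bijective.of_comp_iff' h2 (T.bott A m n)).1 h3

/-- If `G` is a finitely presented torsion-free solvable group whose homology modulo two does not vanish in high degrees,
then for some smooth category the comparison map is not bijective in high degrees. -/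
theorem infinite_of_group (hT : Facts T) (G : Type) [Group G] (hfp : FinitelyPresented G) (hs : Group.IsSolvable G)
    (ht : TorsionFree G) (hG : ∀ N, ∃ n, N ≤ n ∧ ¬ Subsingleton (H2 G n)) :
    ∃ A, T.Smooth A ∧ ∀ d : ℕ, ∃ n : ℤ, (d : ℤ) ≤ n ∧ ¬ Bij (T.comp A 2 n) := by
  obtain ⟨A, hA, he⟩ := hT.cell G hfp
  refine ⟨A, hA, fun d => ?_⟩
  by_contra hd
  push Not at hd
  obtain ⟨e, he1, he⟩ := he 2 (by norm_num)
  have hb : ∀ n : ℤ, (d : ℤ) ≤ n → Bij (T.bott (T.perf G) 2 n) := by
    intro n hn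
    have h1 := bott_bijective hT (by norm_num : 1 ≤ 2) (hd n hn) (hd (n + 2) (by omega))
    have h2 : Function.Bijective (fun x => T.bott (T.perf G) 2 n (e n x)) := by
      have h3 : (fun x => T.bott (T.perf G) 2 n (e n x)) = fun x => e (n + 2) (T.bott A 2 n x) :=
        funext fun x => (ConcreteCategory.congr_hom (he n) x).symm
      rw [h3]
      exact Function.Bijective.comp (he1 (n + 2)) h1
    exact (Function.Bijective.of_comp_iff (T.bott (T.perf G) 2 n) (he1 n)).1 h2
  obtain ⟨n, hn, hne⟩ := hG (d + 3)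
  obtain ⟨p, q, h1, h2, h3⟩ := hT.sequence G hs ht n
  have b1 := hb ((n : ℤ) - 2) (by omega)
  have b2 := hb ((n : ℤ) - 3) (by omega)
  refine hne ⟨fun x y => ?_⟩
  have hz : ∀ z : H2 G n, z = 0 := by
    intro z
    have h4 : q z = 0 := by
      have h5 : T.bott (T.perf G) 2 ((n : ℤ) - 3) (q z) = 0 := (h3 (q z)).2 ⟨z, rfl⟩
      exact b2.1 (h5.trans (map_zero _).symm)
    obtain ⟨w, hw⟩ := (h2 z).1 h4
    obtain ⟨v, hv⟩ := b1.2 w
    rw [← hw, ← hv]
    exact (h1 _).2 ⟨v, rfl⟩
  rw [hz x, hz y]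

theorem finitelyPresented_B : FinitelyPresented B :=
  ⟨3, rels, by simp [rels], ⟨MulEquiv.refl _⟩⟩

/-- the main theorem -/
theorem main (hT : Facts T) : ∃ A, T.Smooth A ∧ (∀ d, ¬ QLDimLe T A d) ∧
    ∀ d : ℕ, ∃ n : ℤ, (d : ℤ) ≤ n ∧ ¬ Bij (T.comp A 2 n) := by
  obtain ⟨A, hA, h⟩ := infinite_of_group hT B finitelyPresented_B solvable_B torsionFree_B homology_B_unbounded
  refine ⟨A, hA, fun d hd => ?_, h⟩
  obtain ⟨n, hn, hn2⟩ := h d
  exact hn2 ((hd 2 (by norm_num)).1 n (by omega))

end Pool.Agent.V7H14.QL
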